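import Pool.Agent.W323.PT.Stm

/-! # A line that carries a positive weight of points -/

set_option autoImplicit false

namespace Pool.Agent.W120.PT

open Pool.Agent.W323.PT

theorem mass_mono {ι : Type} [Fintype ι] {w : ι → ℝ} (hw : ∀ i, 0 ≤ w i) {p q : ι → Prop}
    (h : ∀ i, p i → q i) : mass w p ≤ mass w q := by
  classical
  unfold mass
  refine Finset.sum_le_sum fun i _ => ?_
  by_cases hp : p i
  · rw [if_pos hp, if_pos (h i hp)]
  · rw [if_neg hp]
    split_ifs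
    · exact hw i
    · exact le_refl _

theorem mass_split {ι : Type} [Fintype ι] (w : ι → ℝ) (p r : ι → Prop) :
    mass w (fun i => p i ∧ r i) + mass w (fun i => p i ∧ ¬ r i) = mass w p := by
  classical
  unfold mass
  rw [← Finset.sum_add_distrib]
  refine Finset.sum_congr rfl fun i _ => ?_
  by_cases hp : p i <;> by_cases hr : r i <;> simp [hp, hr]

theorem mass_pos_exists {ι : Type} [Fintype ι] {w : ι → ℝ} {p : ι → Prop} (h : 0 < mass w p) :
    ∃ i, p i := by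
  classical
  by_contra hc
  push Not at hc
  have : mass w p = 0 := by
    unfold mass
    exact Finset.sum_eq_zero fun i _ => if_neg (hc i)
  rw [this] at h
  exact lt_irrefl _ h

/-- weighted median -/
theorem median {ι : Type} [Fintype ι] {w : ι → ℝ} (hw : ∀ i, 0 ≤ w i) (p : ι → Prop) (t : ι → ℝ)
    {δ : ℝ} (hδ : 0 < δ) (h : 2 * δ ≤ mass w p) :
    ∃ s, δ ≤ mass w (fun i => p i ∧ t i ≤ s) ∧ δ ≤ mass w (fun i => p i ∧ s ≤ t i) := by
  classical
  set I : Finset ι := Finset.univ.filter fun i => p i ∧ δ ≤ mass w (fun j => p j ∧ t j ≤ t i)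
    with hI
  have hne : I.Nonempty := by
    obtain ⟨i0, hi0⟩ := mass_pos_exists (w := w) (p := p) (by linarith)
    obtain ⟨i, hi, hmax⟩ := Finset.exists_max_image (Finset.univ.filter fun i => p i) t
      ⟨i0, Finset.mem_filter.2 ⟨Finset.mem_univ _, hi0⟩⟩
    refine ⟨i, Finset.mem_filter.2 ⟨Finset.mem_univ _, (Finset.mem_filter.1 hi).2, ?_⟩⟩
    have h1 : mass w p ≤ mass w (fun j => p j ∧ t j ≤ t i) :=
      mass_mono hw fun j hj => ⟨hj, hmax j (Finset.mem_filter.2 ⟨Finset.mem_univ _, hj⟩)⟩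
    linarith
  obtain ⟨i, hi, hmin⟩ := Finset.exists_min_image I t hne
  obtain ⟨hpi, hmi⟩ := (Finset.mem_filter.1 hi).2
  refine ⟨t i, hmi, ?_⟩
  have h1 := mass_split w p (fun j => t i ≤ t j)
  have h2 : mass w (fun j => p j ∧ ¬ t i ≤ t j) < δ := by
    by_contra hc
    replace hc := not_lt.1 hc
    obtain ⟨j0, hj0⟩ := mass_pos_exists (w := w) (p := fun j => p j ∧ ¬ t i ≤ t j) (by linarith)
    obtain ⟨j, hj, hmax⟩ := Finset.exists_max_image
      (Finset.univ.filter fun j => p j ∧ ¬ t i ≤ t j) t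
      ⟨j0, Finset.mem_filter.2 ⟨Finset.mem_univ _, hj0⟩⟩
    have hj' := (Finset.mem_filter.1 hj).2
    have h3 : mass w (fun l => p l ∧ ¬ t i ≤ t l) ≤ mass w (fun l => p l ∧ t l ≤ t j) :=
      mass_mono hw fun l hl => ⟨hl.1, hmax l (Finset.mem_filter.2 ⟨Finset.mem_univ _, hl⟩)⟩
    have h4 : j ∈ I := Finset.mem_filter.2 ⟨Finset.mem_univ _, hj'.1, hc.trans h3⟩
    exact hj'.2 (hmin j h4)
  linarith

theorem line : S_Center → S_Line := by
  intro hC ι _ w P F δ hδ hw hF hm a b β hab h6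
  classical
  set L := (b.1 - a.1) ^ 2 + (b.2 - a.2) ^ 2 with hL
  have hL0 : 0 < L := by
    rcases eq_or_ne b.1 a.1 with h1 | h1
    · have h2 : b.2 ≠ a.2 := fun h2 => hab (Prod.ext h1.symm h2.symm)
      have h3 : 0 < (b.2 - a.2) ^ 2 := by
        have := sub_ne_zero.2 h2
        positivity
      nlinarith [sq_nonneg (b.1 - a.1)]
    · have h3 : 0 < (b.1 - a.1) ^ 2 := by
        have := sub_ne_zero.2 h1
        positivity
      nlinarith [sq_nonneg (b.2 - a.2)]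
  set t : ι → ℝ := fun i =>
    (((P β i).1 - a.1) * (b.1 - a.1) + ((P β i).2 - a.2) * (b.2 - a.2)) / L with ht
  have hP : ∀ i, o a b (P β i) = 0 → P β i = AffineMap.lineMap (k := ℝ) a b (t i) := by
    intro i hi
    unfold o at hi
    rw [AffineMap.lineMap_apply]
    apply Prod.ext
    · simp only [ht, vsub_eq_sub, vadd_eq_add, Prod.fst_add, Prod.smul_fst, Prod.fst_sub,
        smul_eq_mul]
      rw [div_mul_eq_mul_div, ← sub_eq_iff_eq_add, eq_div_iff hL0.ne', hL]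
      linear_combination (-(b.2 - a.2)) * hi
    · simp only [ht, vsub_eq_sub, vadd_eq_add, Prod.snd_add, Prod.smul_snd, Prod.snd_sub,
        smul_eq_mul]
      rw [div_mul_eq_mul_div, ← sub_eq_iff_eq_add, eq_div_iff hL0.ne', hL]
      linear_combination (b.1 - a.1) * hi
  obtain ⟨s, hs1, hs2⟩ := median hw (fun i => o a b (P β i) = 0) t (δ := 3 * δ) (by linarith)
    (by linarith)
  have hmiss : ∀ K ∈ F, ∀ p : ι → Prop, (∀ i, p i → P β i ∉ K) →
      mass w (fun i => p i ∧ P (!β) i ∉ K) < δ := by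
    intro K hK p hp
    refine lt_of_le_of_lt (mass_mono hw ?_) (hm K hK)
    intro i hi
    have h1 := hp i hi.1
    have h2 := hi.2
    cases β with
    | false => exact ⟨h1, h2⟩
    | true => exact ⟨h2, h1⟩
  obtain ⟨c1, hc1⟩ := hC ι w (P (!β))
    (F.filter fun K => ∀ i, (o a b (P β i) = 0 ∧ t i ≤ s) → P β i ∉ K)
    (fun i => o a b (P β i) = 0 ∧ t i ≤ s) δ hw (fun K hK => hF K (Finset.mem_filter.1 hK).1) hs1
    (fun K hK => hmiss K (Finset.mem_filter.1 hK).1 _ (Finset.mem_filter.1 hK).2)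
  obtain ⟨c2, hc2⟩ := hC ι w (P (!β))
    (F.filter fun K => ∀ i, (o a b (P β i) = 0 ∧ s ≤ t i) → P β i ∉ K)
    (fun i => o a b (P β i) = 0 ∧ s ≤ t i) δ hw (fun K hK => hF K (Finset.mem_filter.1 hK).1) hs2
    (fun K hK => hmiss K (Finset.mem_filter.1 hK).1 _ (Finset.mem_filter.1 hK).2)
  refine ⟨{c1, c2, AffineMap.lineMap (k := ℝ) a b s}, Finset.card_le_three, fun K hK => ?_⟩
  by_cases h1 : ∀ i, (o a b (P β i) = 0 ∧ t i ≤ s) → P β i ∉ K
  · exact ⟨c1, by simp, hc1 K (Finset.mem_filter.2 ⟨hK, h1⟩)⟩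
  by_cases h2 : ∀ i, (o a b (P β i) = 0 ∧ s ≤ t i) → P β i ∉ K
  · exact ⟨c2, by simp, hc2 K (Finset.mem_filter.2 ⟨hK, h2⟩)⟩
  push Not at h1 h2
  obtain ⟨i, ⟨hi0, hi1⟩, hi2⟩ := h1
  obtain ⟨j, ⟨hj0, hj1⟩, hj2⟩ := h2
  refine ⟨AffineMap.lineMap (k := ℝ) a b s, by simp, ?_⟩
  have hconv : Convex ℝ ((AffineMap.lineMap (k := ℝ) a b) ⁻¹' K) :=
    (hF K hK).affine_preimage _
  have hi3 : t i ∈ (AffineMap.lineMap (k := ℝ) a b) ⁻¹' K := by
    show AffineMap.lineMap (k := ℝ) a b (t i) ∈ K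
    rw [← hP i hi0]; exact hi2
  have hj3 : t j ∈ (AffineMap.lineMap (k := ℝ) a b) ⁻¹' K := by
    show AffineMap.lineMap (k := ℝ) a b (t j) ∈ K
    rw [← hP j hj0]; exact hj2
  exact hconv.ordConnected.out hi3 hj3 ⟨hi1, hj1⟩

end Pool.Agent.W120.PT
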